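import Pool.Agent.Helper35.BK.Core

/-!
# MP_f23f32_an: the commutant of the translations of `ℓ²(G)` is a regular masa of `B(ℓ²(G))`
-/

set_option autoImplicit false

namespace Pool.Agent.Helper35.BK

open Filter Topology

/-- Operators are determined by their values on the basis vectors. -/
theorem op_ext {x y : L2 G →L[ℂ] L2 G} (h : ∀ g, x (e g) = y (e g)) : x = y := by
  have h1 : star x = star y := by
    ext w g
    rw [← inner_e g (star x w), ← inner_e g (star y w), ContinuousLinearMap.star_eq_adjoint,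
      ContinuousLinearMap.star_eq_adjoint, ContinuousLinearMap.adjoint_inner_right,
      ContinuousLinearMap.adjoint_inner_right, h]
  rw [← star_star x, h1, star_star]

theorem V_apply (k : G) (f : L2 G) (g : G) : (V k f : G → ℂ) g = f (-k + g) := rfl

theorem A_apply {z : L2 G →L[ℂ] L2 G} (hz : z ∈ A) (g : G) : z (e g) = V g (z (e 0)) := by
  have h : z (V g (e 0)) = V g (z (e 0)) := by
    change (z * V g) (e 0) = (V g * z) (e 0)
    rw [mem_A.1 hz g]
  rw [V_e, add_zero] at h
  exact h

/-- The matrix of an operator. -/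
theorem op_apply (x : L2 G →L[ℂ] L2 G) (f : L2 G) (g : G) :
    (x f : G → ℂ) g = ∑' h : G, (x (e h) : G → ℂ) g * f h := by
  rw [← inner_e g (x f), ← ContinuousLinearMap.adjoint_inner_left, lp.inner_eq_tsum]
  refine tsum_congr fun h => ?_
  have h1 : ((ContinuousLinearMap.adjoint x) (e g) : G → ℂ) h =
      (starRingEnd ℂ) ((x (e h) : G → ℂ) g) := by
    rw [← inner_e h, ContinuousLinearMap.adjoint_inner_right, ← inner_e g, inner_conj_symm]
  rw [h1]
  simp [RCLike.inner_apply, mul_comm]

theorem A_comm {x y : L2 G →L[ℂ] L2 G} (hx : x ∈ A) (hy : y ∈ A) : x * y = y * x := by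
  have hxy : x * y ∈ A := mul_mem hx hy
  have hyx : y * x ∈ A := mul_mem hy hx
  have key : ∀ {x y : L2 G →L[ℂ] L2 G}, x ∈ A → ∀ g : G,
      (x (y (e 0)) : G → ℂ) g = ∑' h : G, (x (e 0) : G → ℂ) (-h + g) * (y (e 0) : G → ℂ) h := by
    intro x y hx g
    rw [op_apply]
    refine tsum_congr fun h => ?_
    rw [A_apply hx h, V_apply]
  have h0 : x (y (e 0)) = y (x (e 0)) := by
    ext g
    rw [key hx, key hy, ← Equiv.tsum_eq (Equiv.subLeft g)]
    refine tsum_congr fun h => ?_
    rw [Equiv.subLeft_apply, show -(g - h) + g = h by abel, show g - h = -h + g by abel, mul_comm]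
  refine op_ext fun g => ?_
  rw [A_apply hxy, A_apply hyx]
  congr 1

/-- The sign of the coordinate `i`. -/
noncomputable def sn (i : ℕ) (g : G) : ℂ := if g i = 0 then 1 else -1

theorem sn_norm (i : ℕ) (g : G) : ‖sn i g‖ = 1 := by
  unfold sn
  split_ifs <;> simp

theorem sn_sq (i : ℕ) (g : G) : sn i g * sn i g = 1 := by
  unfold sn
  split_ifs <;> simp

theorem sn_add (i : ℕ) (g h : G) : sn i (g + h) = sn i g * sn i h := by
  unfold sn
  rw [Finsupp.add_apply]
  have h2 : (1 : ZMod 2) + 1 = 0 := by decide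
  have h3 : ∀ a : ZMod 2, a = 0 ∨ a = 1 := by decide
  rcases h3 (g i) with ha | ha <;> rcases h3 (h i) with hb | hb <;> simp [ha, hb, h2]

/-- The multiplication by the sign of the coordinate `i`. -/
noncomputable def dL (i : ℕ) : L2 G →ₗᵢ[ℂ] L2 G where
  toFun f := ⟨fun g => sn i g * f g, by
    have h := lp.memℓp f
    change Memℓp (fun g => sn i g * f g) 2
    rw [memℓp_gen_iff (by norm_num)] at h ⊢
    simpa [norm_mul, sn_norm] using h⟩
  map_add' f g := by
    ext j
    exact mul_add _ _ _
  map_smul' c f := by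
    ext j
    exact mul_left_comm _ _ _
  norm_map' f := by
    have h2 : (0 : ℝ) < (2 : ENNReal).toReal := by norm_num
    rw [lp.norm_eq_tsum_rpow h2, lp.norm_eq_tsum_rpow h2]
    congr 1
    refine tsum_congr fun j => ?_
    change ‖sn i j * f j‖ ^ _ = _
    rw [norm_mul, sn_norm, one_mul]

/-- As a bounded operator. -/
noncomputable def D (i : ℕ) : L2 G →L[ℂ] L2 G := (dL i).toContinuousLinearMap

theorem D_apply (i : ℕ) (f : L2 G) (g : G) : (D i f : G → ℂ) g = sn i g * f g := rfl

theorem D_sq (i : ℕ) : D i * D i = 1 := by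
  ext f g
  change (D i (D i f) : G → ℂ) g = f g
  rw [D_apply, D_apply, ← mul_assoc, sn_sq, one_mul]

theorem D_star (i : ℕ) : star (D i) = D i := by
  rw [ContinuousLinearMap.star_eq_adjoint]
  symm
  rw [ContinuousLinearMap.eq_adjoint_iff]
  intro x y
  have h : (inner ℂ (D i x) (D i (D i y)) : ℂ) = inner ℂ x (D i y) := (dL i).inner_map_map _ _
  rw [← h]
  congr 1
  change y = (D i * D i) y
  rw [D_sq]
  rfl

theorem D_V (i : ℕ) (k : G) : D i * V k = sn i k • (V k * D i) := by
  ext f g
  change (D i (V k f) : G → ℂ) g = sn i k * (V k (D i f) : G → ℂ) g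
  rw [D_apply, V_apply, V_apply, D_apply, ← mul_assoc, ← sn_add]
  congr 2
  abel_nf

theorem D_conj_mem {z : L2 G →L[ℂ] L2 G} (hz : z ∈ A) (i : ℕ) : D i * z * star (D i) ∈ A := by
  rw [D_star, mem_A]
  intro k
  have h1 : V k * D i = sn i k • (D i * V k) := by
    rw [D_V, smul_smul, sn_sq, one_smul]
  calc V k * (D i * z * D i) = (V k * D i) * z * D i := by simp only [mul_assoc]
    _ = sn i k • (D i * (V k * z) * D i) := by
        rw [h1]; simp only [smul_mul_assoc, mul_assoc]
    _ = sn i k • (D i * (z * V k) * D i) := by rw [mem_A.1 hz k]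
    _ = D i * z * (sn i k • (V k * D i)) := by
        simp only [mul_smul_comm, mul_assoc]
    _ = D i * z * (D i * V k) := by rw [← D_V]
    _ = D i * z * D i * V k := by simp only [mul_assoc]

theorem V_unitary (k : G) : V k ∈ unitary (L2 G →L[ℂ] L2 G) := by
  rw [Unitary.mem_iff, star_V, ← V_add, ← V_add, neg_add_cancel, add_neg_cancel]
  have : V 0 = 1 := by
    ext f g
    rw [V_apply, neg_zero, zero_add]
    rfl
  exact ⟨this, this⟩

theorem D_unitary (i : ℕ) : D i ∈ unitary (L2 G →L[ℂ] L2 G) := by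
  rw [Unitary.mem_iff, D_star, D_sq]
  exact ⟨rfl, rfl⟩

theorem V_norm_A (k : G) : (fun x => V k * x * star (V k)) '' (A : Set (L2 G →L[ℂ] L2 G)) = A := by
  have h : ∀ x ∈ A, V k * x * star (V k) = x := by
    intro x hx
    rw [mem_A.1 hx k, mul_assoc, (Unitary.mem_iff.1 (V_unitary k)).2, mul_one]
  ext x
  constructor
  · rintro ⟨y, hy, rfl⟩
    change V k * y * star (V k) ∈ A
    rw [h y hy]
    exact hy
  · intro hx
    exact ⟨x, hx, h x hx⟩

theorem D_norm_A (i : ℕ) :
    (fun x => D i * x * star (D i)) '' (A : Set (L2 G →L[ℂ] L2 G)) = A := by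
  ext x
  constructor
  · rintro ⟨y, hy, rfl⟩
    exact D_conj_mem hy i
  · intro hx
    refine ⟨D i * x * star (D i), D_conj_mem hx i, ?_⟩
    change D i * (D i * x * star (D i)) * star (D i) = x
    rw [D_star]
    calc D i * (D i * x * D i) * D i = (D i * D i) * x * (D i * D i) := by
          simp only [mul_assoc]
      _ = x := by rw [D_sq, one_mul, mul_one]

/-- Operators which commute with the translations and with the signs are scalars. -/
theorem scalar {x : L2 G →L[ℂ] L2 G} (hV : ∀ k, V k * x = x * V k)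
    (hD : ∀ i, D i * x = x * D i) : ∃ c : ℂ, x = c • (1 : L2 G →L[ℂ] L2 G) := by
  refine ⟨(x (e 0) : G → ℂ) 0, op_ext fun g => ?_⟩
  have hx : x ∈ A := mem_A.2 hV
  have h0 : x (e 0) = (x (e 0) : G → ℂ) 0 • e 0 := by
    ext h
    change _ = (x (e 0) : G → ℂ) 0 * (e 0 : G → ℂ) h
    rw [e_apply]
    by_cases hh : h = 0
    · rw [if_pos hh, hh, mul_one]
    · rw [if_neg hh, mul_zero]
      obtain ⟨i, hi⟩ := exists_ne hh
      have hDe : D i (e 0) = e 0 := by
        ext j
        rw [D_apply, e_apply]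
        by_cases hj : j = 0
        · rw [if_pos hj, hj, mul_one]
          simp [sn]
        · rw [if_neg hj, mul_zero]
      have h1 : (D i (x (e 0)) : G → ℂ) h = (x (e 0) : G → ℂ) h := by
        have h2 : D i (x (e 0)) = x (D i (e 0)) := by
          change (D i * x) (e 0) = (x * D i) (e 0)
          rw [hD i]
        rw [h2, hDe]
      rw [D_apply, sn, if_neg hi] at h1
      have h3 : (2 : ℂ) * (x (e 0) : G → ℂ) h = 0 := by linear_combination -h1
      exact (mul_eq_zero.1 h3).resolve_left two_ne_zero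
  have h5 : V g (x (e 0)) = V g ((x (e 0) : G → ℂ) 0 • e 0) := congrArg (V g) h0
  rw [A_apply hx g, h5, map_smul, V_e, add_zero]
  rfl

/-- The Hilbert space is separable. -/
theorem separable : TopologicalSpace.SeparableSpace (L2 G) := by
  have h1 : (Submodule.span ℂ (Set.range (e : G → L2 G))).topologicalClosure = ⊤ := by
    rw [Submodule.topologicalClosure_eq_top_iff, Submodule.eq_bot_iff]
    intro v hv
    ext g
    have h2 := (Submodule.mem_orthogonal _ v).1 hv (e g) (Submodule.subset_span ⟨g, rfl⟩)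
    rw [inner_e] at h2
    rw [h2]
    rfl
  have h3 : TopologicalSpace.IsSeparable
      (Submodule.span ℂ (Set.range (e : G → L2 G)) : Set (L2 G)) :=
    (Set.countable_range e).isSeparable.span
  have h4 : (closure (Submodule.span ℂ (Set.range (e : G → L2 G)) : Set (L2 G))) = Set.univ := by
    rw [← Submodule.topologicalClosure_coe, h1]
    rfl
  rw [← TopologicalSpace.isSeparable_univ_iff, ← h4]
  exact h3.closure

end Pool.Agent.Helper35.BK
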